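import Pool.Agent.Helper38.Curl.Rep

/-!
Packet C-INV: invariance of the limit domain.
-/

open MeasureTheory Set Filter Topology Metric
open scoped ContDiff RealInnerProductSpace
open Pool.Agent.Helper38.Curl

namespace Pool.Agent.Helper32.Curl

theorem TestF.comp_sub {η : E → ℝ} (h : TestF η) (c : E) : TestF (fun z => η (z - c)) := by
  refine ⟨h.1.comp (contDiff_id.sub contDiff_const), ?_⟩
  exact h.2.comp_homeomorph (Homeomorph.subRight c)

theorem TestF.comp_neg {η : E → ℝ} (h : TestF η) : TestF (fun z => η (-z)) := by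
  refine ⟨h.1.comp contDiff_neg, ?_⟩
  exact h.2.comp_homeomorph (Homeomorph.neg E)

/-- the integral over `P` of a translated test function is constant -/
theorem integral_const {P : Set E} (hP : MeasurableSet P) {e : E}
    (hd : ∀ η, TestF η → ∫ z in P, fderiv ℝ η z e = 0) {η : E → ℝ} (hη : TestF η) (t : ℝ) :
    ∫ z in P, η (z - t • e) = ∫ z in P, η z := by
  set χ : E → ℝ := P.indicator (fun _ => (1 : ℝ)) with hχ
  set g : E → ℝ := fun z => η (-z) with hg
  have hgT : TestF g := TestF.comp_neg hη
  have hχl : LocallyIntegrable χ := (locallyIntegrable_const 1).indicator hP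
  have hconv : ∀ x : E, (convolution χ g (ContinuousLinearMap.lsmul ℝ ℝ) volume) x =
      ∫ z in P, η (z - x) := by
    intro x
    rw [convolution_def, ← integral_indicator hP]
    congr 1
    ext z
    by_cases hz : z ∈ P
    · simp [hχ, hg, hz]
    · simp [hχ, hz]
  have hF : ∀ x : E, HasFDerivAt (convolution χ g (ContinuousLinearMap.lsmul ℝ ℝ) volume)
      ((convolution χ (fderiv ℝ g) ((ContinuousLinearMap.lsmul ℝ ℝ).precompR E) volume) x) x :=
    fun x => hgT.2.hasFDerivAt_convolution_right _ hχl (hgT.1.of_le (by simp)) x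
  have hzero : ∀ x : E,
      ((convolution χ (fderiv ℝ g) ((ContinuousLinearMap.lsmul ℝ ℝ).precompR E) volume) x) e = 0 := by
    intro x
    rw [convolution_precompR_apply _ hχl (hgT.2.fderiv ℝ)
      (hgT.1.continuous_fderiv (by simp)), convolution_def]
    have h1 := hd (fun z => η (z - x)) (TestF.comp_sub hη x)
    rw [← integral_indicator hP] at h1
    rw [← neg_eq_zero, ← integral_neg]
    rw [← h1]
    congr 1
    ext z
    have h2 : fderiv ℝ g (x - z) e = - fderiv ℝ η (z - x) e := by
      have h3 : HasFDerivAt g ((fderiv ℝ η (-(x - z))).comp (-(ContinuousLinearMap.id ℝ E))) (x - z) := by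
        have h4 : HasFDerivAt η (fderiv ℝ η (-(x - z))) (-(x - z)) :=
          ((hη.1.differentiable (by simp)) _).hasFDerivAt
        have h5 : HasFDerivAt (fun y : E => -y) (-(ContinuousLinearMap.id ℝ E)) (x - z) :=
          (hasFDerivAt_id _).neg
        exact h4.comp _ h5
      rw [h3.fderiv]
      simp
    have h6 : fderiv ℝ (fun z => η (z - x)) z = fderiv ℝ η (z - x) := by
      rw [fderiv_comp_sub]
    by_cases hz : z ∈ P
    · simp only [hχ, indicator_of_mem hz, ContinuousLinearMap.lsmul_apply, one_smul, h2, h6, neg_neg]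
    · simp only [hχ, indicator_of_notMem hz, ContinuousLinearMap.lsmul_apply, zero_smul, neg_zero]
  have hder : ∀ t : ℝ, HasDerivAt (fun t : ℝ => ∫ z in P, η (z - t • e)) 0 t := by
    intro t
    have h1 : HasDerivAt (fun t : ℝ => t • e) e t := by
      simpa using (hasDerivAt_id t).smul_const e
    have h2 := (hF (t • e)).comp_hasDerivAt t h1
    rw [hzero] at h2
    refine h2.congr_of_eventuallyEq (Eventually.of_forall fun s => ?_)
    simp only [Function.comp, hconv]
  have hcst := is_const_of_deriv_eq_zero (f := fun t : ℝ => ∫ z in P, η (z - t • e))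
    (fun t => (hder t).differentiableAt) (fun t => (hder t).deriv) t 0
  simpa using hcst

theorem ae_invariant {P : Set E} (hP : MeasurableSet P) {e : E}
    (hd : ∀ η, TestF η → ∫ z in P, fderiv ℝ η z e = 0) (t : ℝ) :
    ∀ᵐ z : E, (z + t • e ∈ P ↔ z ∈ P) := by
  have hP' : MeasurableSet {z : E | z + t • e ∈ P} := (measurable_id.add_const (t • e)) hP
  have hl1 : LocallyIntegrable (P.indicator (fun _ => (1 : ℝ))) (volume : Measure E) :=
    (locallyIntegrable_const 1).indicator hP
  have hl2 : LocallyIntegrable ({z : E | z + t • e ∈ P}.indicator (fun _ => (1 : ℝ)))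
      (volume : Measure E) := (locallyIntegrable_const 1).indicator hP'
  have h := ae_eq_of_integral_contDiff_smul_eq hl2 hl1 (fun η h1 h2 => ?_)
  · filter_upwards [h] with z hz
    by_cases h3 : z ∈ P <;> by_cases h4 : z + t • e ∈ P
    · exact ⟨fun _ => h3, fun _ => h4⟩
    · exfalso
      rw [indicator_of_mem h3, indicator_of_notMem (by exact h4)] at hz
      exact zero_ne_one hz
    · exfalso
      rw [indicator_of_notMem h3, indicator_of_mem (by exact h4)] at hz
      exact one_ne_zero hz
    · exact ⟨fun h => absurd h h4, fun h => absurd h h3⟩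
  · have h3 := integral_const hP hd ⟨h1, h2⟩ t
    rw [← integral_indicator hP, ← integral_indicator hP] at h3
    have h4 : ∫ x, P.indicator (fun z => η (z - t • e)) x =
        ∫ x, P.indicator (fun z => η (z - t • e)) (x + t • e) :=
      (integral_add_right_eq_self _ _).symm
    rw [h4] at h3
    have e1 : (fun x => η x • ({z : E | z + t • e ∈ P}.indicator (fun _ => (1 : ℝ)) x)) =
        fun x => P.indicator (fun z => η (z - t • e)) (x + t • e) := by
      funext z
      by_cases hz : z + t • e ∈ P
      · rw [indicator_of_mem (s := {z : E | z + t • e ∈ P}) (by exact hz), indicator_of_mem hz]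
        simp
      · rw [indicator_of_notMem (s := {z : E | z + t • e ∈ P}) (by exact hz),
          indicator_of_notMem hz]
        simp
    have e2 : (fun x => η x • P.indicator (fun _ => (1 : ℝ)) x) = fun x => P.indicator η x := by
      funext z
      by_cases hz : z ∈ P
      · rw [indicator_of_mem hz, indicator_of_mem hz]; simp
      · rw [indicator_of_notMem hz, indicator_of_notMem hz]; simp
    rw [e1, e2]
    exact h3

set_option linter.unusedVariables false in
theorem limit_invariant {c₀ : ℝ} (hc : 0 < c₀) {ν : E} {g : E → ℝ} (hν : ‖ν‖ = 1)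
    (hl : LipschitzWith 1 g) (h0 : g 0 = 0)
    (ht : ∀ z, g z = 0 → ∀ t, 0 ≤ t → c₀ * t ≤ g (z + t • ν) ∧ g (z - t • ν) ≤ -(c₀ * t))
    {e : E} (hd : ∀ η, TestF η → ∫ z in {z | 0 < g z}, fderiv ℝ η z e = 0) (z : E) (t : ℝ) :
    (0 < g (z + t • e) ↔ 0 < g z) ∧ (g (z + t • e) < 0 ↔ g z < 0) := by
  have hgc : Continuous g := hl.continuous
  have hP : IsOpen {z | 0 < g z} := isOpen_lt continuous_const hgc
  have hinv : ∀ t : ℝ, ∀ᵐ z : E, (0 < g (z + t • e) ↔ 0 < g z) :=
    fun t => ae_invariant hP.measurableSet hd t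
  -- an open set of bad points is empty
  have hbad1 : ∀ (t : ℝ) (z : E), g z < 0 → ¬ 0 < g (z + t • e) := by
    intro t z h1 h2
    have hO : IsOpen ({z | g z < 0} ∩ {z | 0 < g (z + t • e)}) :=
      (isOpen_lt hgc continuous_const).inter
        (isOpen_lt continuous_const (hgc.comp (continuous_id.add continuous_const)))
    have hpos := hO.measure_pos volume ⟨z, h1, h2⟩
    have hnull : volume ({z | g z < 0} ∩ {z | 0 < g (z + t • e)}) = 0 := by
      rw [measure_eq_zero_iff_ae_notMem]
      filter_upwards [hinv t] with y hy hy2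
      have h3 : 0 < g y := hy.1 hy2.2
      have h4 : g y < 0 := hy2.1
      linarith
    exact hpos.ne' hnull
  have hbad2 : ∀ (t : ℝ) (z : E), 0 < g z → ¬ g (z + t • e) < 0 := by
    intro t z h1 h2
    have h3 := hbad1 (-t) (z + t • e) h2
    apply h3
    rw [neg_smul, add_neg_cancel_right]
    exact h1
  -- approximation of zeros
  have happ : ∀ (t : ℝ) (z : E), g z = 0 → ¬ 0 < g (z + t • e) := by
    intro t z h1 h2
    have hcont : Continuous (fun τ : ℝ => g (z - τ • ν + t • e)) := by fun_prop
    have h3 : ∀ᶠ τ in 𝓝[>] (0 : ℝ), 0 < g (z - τ • ν + t • e) := by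
      have h4 : Tendsto (fun τ : ℝ => g (z - τ • ν + t • e)) (𝓝[>] 0) (𝓝 (g (z + t • e))) := by
        have h5 := (hcont.tendsto 0).mono_left (nhdsWithin_le_nhds (s := Ioi (0 : ℝ)))
        simpa using h5
      exact h4.eventually (lt_mem_nhds h2)
    obtain ⟨τ, hτ, hτ0⟩ := (h3.and self_mem_nhdsWithin).exists
    have hτ0 : 0 < τ := hτ0
    have h6 := (ht z h1 τ hτ0.le).2
    have h7 : 0 < c₀ * τ := mul_pos hc hτ0
    exact hbad1 t (z - τ • ν) (by linarith) hτ
  have happ2 : ∀ (t : ℝ) (z : E), g z = 0 → ¬ g (z + t • e) < 0 := by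
    intro t z h1 h2
    have hcont : Continuous (fun τ : ℝ => g (z + τ • ν + t • e)) := by fun_prop
    have h3 : ∀ᶠ τ in 𝓝[>] (0 : ℝ), g (z + τ • ν + t • e) < 0 := by
      have h4 : Tendsto (fun τ : ℝ => g (z + τ • ν + t • e)) (𝓝[>] 0) (𝓝 (g (z + t • e))) := by
        have h5 := (hcont.tendsto 0).mono_left (nhdsWithin_le_nhds (s := Ioi (0 : ℝ)))
        simpa using h5
      exact h4.eventually (gt_mem_nhds h2)
    obtain ⟨τ, hτ, hτ0⟩ := (h3.and self_mem_nhdsWithin).exists
    have hτ0 : 0 < τ := hτ0
    have h6 := (ht z h1 τ hτ0.le).1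
    have h7 : 0 < c₀ * τ := mul_pos hc hτ0
    exact hbad2 t (z + τ • ν) (by linarith) hτ
  have hA : ∀ (t : ℝ) (z : E), 0 < g (z + t • e) → 0 < g z := by
    intro t z h
    by_contra h1
    rcases lt_or_eq_of_le (not_lt.1 h1) with h2 | h2
    · exact hbad1 t z h2 h
    · exact happ t z h2 h
  have hB : ∀ (t : ℝ) (z : E), g (z + t • e) < 0 → g z < 0 := by
    intro t z h
    by_contra h1
    rcases lt_or_eq_of_le (not_lt.1 h1) with h2 | h2
    · exact hbad2 t z h2 h
    · exact happ2 t z h2.symm h
  refine ⟨⟨hA t z, fun h => ?_⟩, ⟨hB t z, fun h => ?_⟩⟩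
  · apply hA (-t) (z + t • e)
    rw [neg_smul, add_neg_cancel_right]
    exact h
  · apply hB (-t) (z + t • e)
    rw [neg_smul, add_neg_cancel_right]
    exact h

end Pool.Agent.Helper32.Curl
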