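import Pool.Agent.Helper38.Curl.Rep

/-!
Packet C-F4: the boundary potential `zet`.
-/

open MeasureTheory Set Filter Topology Metric
open scoped ContDiff RealInnerProductSpace
open Pool.Agent.Helper38.Curl

namespace Pool.Agent.Helper32.Curl

/-- the derivative of the integrand -/
noncomputable def dz (A : E → E) (ν : E) (z : E) (t : ℝ) : E →L[ℝ] ℝ :=
  (innerSL ℝ ν).comp (fderiv ℝ A (z - t • ν))

theorem dz_apply (A : E → E) (ν z w : E) (t : ℝ) :
    dz A ν z t w = ⟪fderiv ℝ A (z - t • ν) w, ν⟫ := by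
  simp [dz, real_inner_comm]

theorem continuous_fd {A : E → E} (hA : Test A) : Continuous (fderiv ℝ A) :=
  hA.1.continuous_fderiv (by simp)

theorem continuous_dz {A : E → E} (hA : Test A) (ν : E) :
    Continuous (fun p : E × ℝ => dz A ν p.1 p.2) := by
  unfold dz
  have h2 : Continuous (fun p : E × ℝ => fderiv ℝ A (p.1 - p.2 • ν)) :=
    (continuous_fd hA).comp (by fun_prop)
  exact (continuous_const.clm_comp h2)

theorem hasDeriv_shift {A : E → E} (hA : Test A) (ν z : E) (t : ℝ) :
    HasDerivAt (fun t : ℝ => A (z - t • ν)) (- fderiv ℝ A (z - t • ν) ν) t := by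
  have h1 : HasDerivAt (fun t : ℝ => z - t • ν) (-ν) t := by
    simpa using ((hasDerivAt_id t).smul_const ν).const_sub z
  have h2 : HasFDerivAt A (fderiv ℝ A (z - t • ν)) (z - t • ν) :=
    ((hA.1.differentiable (by simp)) _).hasFDerivAt
  have h3 := h2.comp_hasDerivAt t h1
  rw [map_neg] at h3
  exact h3

theorem hasFDerivAt_zet {A : E → E} (hA : Test A) (ν : E) (τ : ℝ) (z : E) :
    HasFDerivAt (zet A ν τ) (∫ t in (0 : ℝ)..τ, dz A ν z t) z := by
  obtain ⟨C, hC⟩ := (hA.2.fderiv ℝ).exists_bound_of_continuous (continuous_fd hA)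
  have hAc : Continuous A := hA.1.continuous
  refine intervalIntegral.hasFDerivAt_integral_of_dominated_of_fderiv_le
    (F := fun z t => ⟪A (z - t • ν), ν⟫) (F' := fun z t => dz A ν z t)
    (bound := fun _ => ‖innerSL ℝ ν‖ * C) (s := univ) univ_mem ?_ ?_ ?_ ?_ ?_ ?_
  · refine Eventually.of_forall fun x => ?_
    have : Continuous (fun t : ℝ => ⟪A (x - t • ν), ν⟫) := by fun_prop
    exact this.aestronglyMeasurable
  · have : Continuous (fun t : ℝ => ⟪A (z - t • ν), ν⟫) := by fun_prop
    exact this.intervalIntegrable _ _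
  · exact ((continuous_dz hA ν).comp (Continuous.prodMk_right z)).aestronglyMeasurable
  · refine Eventually.of_forall fun t _ x _ => ?_
    unfold dz
    exact (ContinuousLinearMap.opNorm_comp_le _ _).trans
      (mul_le_mul_of_nonneg_left (hC _) (norm_nonneg _))
  · exact intervalIntegrable_const
  · refine Eventually.of_forall fun t _ x _ => ?_
    have h1 : HasFDerivAt (fun x : E => A (x - t • ν)) (fderiv ℝ A (x - t • ν)) x := by
      have h2 : HasFDerivAt A (fderiv ℝ A (x - t • ν)) (x - t • ν) :=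
        ((hA.1.differentiable (by simp)) _).hasFDerivAt
      have h3 : HasFDerivAt (fun x : E => x - t • ν) (ContinuousLinearMap.id ℝ E) x :=
        (hasFDerivAt_id x).sub_const _
      have h4 := h2.comp x h3
      rw [ContinuousLinearMap.comp_id] at h4
      exact h4
    have h4 := (innerSL ℝ ν).hasFDerivAt.comp x h1
    have h5 : (fun x => ⟪A (x - t • ν), ν⟫) = (innerSL ℝ ν) ∘ (fun x : E => A (x - t • ν)) := by
      funext y
      simp [real_inner_comm]
    rw [h5]
    exact h4

theorem zet_contDiff {A : E → E} (hA : Test A) (ν : E) (τ : ℝ) :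
    ContDiff ℝ 1 (zet A ν τ) := by
  rw [contDiff_one_iff_hasFDerivAt]
  refine ⟨fun z => ∫ t in (0 : ℝ)..τ, dz A ν z t, ?_, hasFDerivAt_zet hA ν τ⟩
  exact intervalIntegral.continuous_parametric_intervalIntegral_of_continuous'
    (f := fun z t => dz A ν z t) (continuous_dz hA ν) 0 τ

theorem continuous_curl {A : E → E} (hA : Test A) : Continuous (curl A) := by
  have h : ∀ i j : Fin 3, Continuous (pd A i j) := by
    intro i j
    unfold pd
    have h1 : Continuous (fun x => fderiv ℝ A x (bv i)) := (continuous_fd hA).clm_apply continuous_const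
    fun_prop
  have h2 : curl A = fun x => (WithLp.toLp 2 (![pd A 1 2 x - pd A 2 1 x, pd A 2 0 x - pd A 0 2 x,
      pd A 0 1 x - pd A 1 0 x] : Fin 3 → ℝ) : E) := rfl
  rw [h2]
  have h3 := h 1 2
  have h4 := h 2 1
  have h5 := h 2 0
  have h6 := h 0 2
  have h7 := h 0 1
  have h8 := h 1 0
  refine (PiLp.continuous_toLp 2 _).comp (continuous_pi fun i => ?_)
  fin_cases i
  · exact h3.sub h4
  · exact h5.sub h6
  · exact h7.sub h8

theorem continuous_cr (ν : E) : Continuous (fun w : E => cr ν w) := by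
  have h : IsBoundedLinearMap ℝ (fun w : E => cr ν w) := by
    refine ⟨⟨fun a b => cr_add_right ν a b, fun c a => cr_smul_right c ν a⟩, ‖ν‖ + 1, by positivity,
      fun w => (norm_cr_le ν w).trans ?_⟩
    nlinarith [norm_nonneg w]
  exact h.continuous

theorem gradient_zet {A : E → E} (hA : Test A) (ν : E) (τ : ℝ) (z : E) :
    gradient (zet A ν τ) z
      = A z - A (z - τ • ν) + ∫ t in (0 : ℝ)..τ, cr ν (curl A (z - t • ν)) := by
  refine ext_inner_right ℝ fun w => ?_
  rw [inner_gradient, (hasFDerivAt_zet hA ν τ z).fderiv]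
  have hc1 : Continuous (fun t : ℝ => dz A ν z t) := (continuous_dz hA ν).comp (Continuous.prodMk_right z)
  have hc2 : Continuous (fun t : ℝ => cr ν (curl A (z - t • ν))) :=
    (continuous_cr ν).comp ((continuous_curl hA).comp (by fun_prop))
  have hc3 : Continuous (fun t : ℝ => fderiv ℝ A (z - t • ν) ν) :=
    ((continuous_fd hA).comp (by fun_prop)).clm_apply continuous_const
  rw [ContinuousLinearMap.intervalIntegral_apply (hc1.intervalIntegrable _ _)]
  have h1 : ∀ t : ℝ, dz A ν z t w =
      ⟪fderiv ℝ A (z - t • ν) ν, w⟫ + ⟪cr ν (curl A (z - t • ν)), w⟫ := by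
    intro t
    rw [dz_apply]
    have h2 := inner_fderiv_sub A (z - t • ν) w ν
    have h3 : ⟪curl A (z - t • ν), cr w ν⟫ = ⟪cr ν (curl A (z - t • ν)), w⟫ := by
      rw [← real_inner_comm, inner_cr, real_inner_comm]
    rw [h3] at h2
    linarith
  have hc3' : Continuous (fun t : ℝ => ⟪fderiv ℝ A (z - t • ν) ν, w⟫) := by fun_prop
  have hc2' : Continuous (fun t : ℝ => ⟪cr ν (curl A (z - t • ν)), w⟫) := by fun_prop
  simp_rw [h1]
  rw [intervalIntegral.integral_add (hc3'.intervalIntegrable _ _) (hc2'.intervalIntegrable _ _)]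
  rw [inner_add_left]
  congr 1
  · have h4 : ∀ t ∈ uIcc (0 : ℝ) τ, HasDerivAt (fun t : ℝ => - ⟪A (z - t • ν), w⟫)
        ⟪fderiv ℝ A (z - t • ν) ν, w⟫ t := by
      intro t _
      have h5 := ((hasDeriv_shift hA ν z t).inner ℝ (hasDerivAt_const t w)).neg
      rw [inner_zero_right, zero_add, inner_neg_left, neg_neg] at h5
      exact h5
    rw [intervalIntegral.integral_eq_sub_of_hasDerivAt h4 (hc3'.intervalIntegrable _ _)]
    simp only [zero_smul, sub_zero]
    rw [inner_sub_left]
    ring
  · have h6 := (innerSL ℝ w).intervalIntegral_comp_comm (μ := volume)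
      (hc2.intervalIntegrable 0 τ)
    simp only [innerSL_apply_apply] at h6
    rw [real_inner_comm, ← h6]
    congr 1
    ext t
    rw [real_inner_comm]

end Pool.Agent.Helper32.Curl
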